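import Mathlib
import Pool.Agent.TH254.DilAbs

/-!
# Three commuting unital CP maps without any dilation

There are three commuting stochastic matrices of size 15 (that is, three commuting unital normal CP
maps on the commutative von Neumann algebra `ℂ^15` of diagonal operators on `ℂ^15`) such that the
associated CP-semigroup over `ℕ^3` has no dilation at all to an E-semigroup on a von Neumann
algebra.

The three matrices are supported on a 3-coloured graph with a start `x = 0`, an end `w = 13`, the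
points `1, …, 6` one step after `x`, the points `7, …, 12` two steps after `x`, and a sink `14`.
The dilation identities force equalities between vectors attached to the paths from `x` to `w`;
going once around the six orders of the three colours these equalities identify two
orthogonal non-zero vectors.
-/

set_option autoImplicit false

open scoped ComplexOrder InnerProductSpace

namespace Pool.Agent.Results.MP_0a86e9_an.NoDilation

universe u

section Defs

variable {H : Type*} [NormedAddCommGroup H] [InnerProductSpace ℂ H] [CompleteSpace H]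
  {K : Type*} [NormedAddCommGroup K] [InnerProductSpace ℂ K] [CompleteSpace K]

/-- The operator matrix `(a i j)` is positive as an operator on `H ⊕ ⋯ ⊕ H`. -/
def MatrixNonneg {n : ℕ} (a : Fin n → Fin n → (H →L[ℂ] H)) : Prop :=
  ∀ ξ : Fin n → H, 0 ≤ ∑ i, ∑ j, ⟪ξ i, a i j (ξ j)⟫_ℂ

/-- `T` restricts to a linear map `A → A`. (Maps on the von Neumann algebra `A ⊆ B(H)` are given as
functions on `B(H)`, of which only the values on `A` matter.) -/
structure IsLinearOn (A : VonNeumannAlgebra H) (T : (H →L[ℂ] H) → (H →L[ℂ] H)) : Prop where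
  mem : ∀ a ∈ A, T a ∈ A
  add : ∀ a ∈ A, ∀ b ∈ A, T (a + b) = T a + T b
  smul : ∀ c : ℂ, ∀ a ∈ A, T (c • a) = c • T a

/-- `T : A → A` is completely positive: it maps positive matrices over `A` to positive matrices. -/
def IsCP (A : VonNeumannAlgebra H) (T : (H →L[ℂ] H) → (H →L[ℂ] H)) : Prop :=
  ∀ (n : ℕ) (a : Fin n → Fin n → (H →L[ℂ] H)), (∀ i j, a i j ∈ A) → MatrixNonneg a →
    MatrixNonneg (fun i j => T (a i j))

/-- `x` is the least upper bound in `A` of the set `S`, for the order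
`a ≤ b ↔ b - a is positive`. -/
def IsSup (A : VonNeumannAlgebra H) (S : Set (H →L[ℂ] H)) (x : H →L[ℂ] H) : Prop :=
  x ∈ A ∧ (∀ s ∈ S, s ≤ x) ∧ ∀ y ∈ A, (∀ s ∈ S, s ≤ y) → x ≤ y

/-- `T : A → A` is normal: it preserves least upper bounds of upward directed sets. -/
def IsNormalOn (A : VonNeumannAlgebra H) (T : (H →L[ℂ] H) → (H →L[ℂ] H)) : Prop :=
  ∀ (S : Set (H →L[ℂ] H)) (x : H →L[ℂ] H), (∀ s ∈ S, s ∈ A) → S.Nonempty →
    DirectedOn (· ≤ ·) S → IsSup A S x → IsSup A (T '' S) (T x)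

/-- `T 0, T 1, T 2` are commuting unital normal completely positive linear maps on `A`. -/
structure IsCommutingTriple (A : VonNeumannAlgebra H)
    (T : Fin 3 → (H →L[ℂ] H) → (H →L[ℂ] H)) : Prop where
  linear : ∀ i, IsLinearOn A (T i)
  unital : ∀ i, T i 1 = 1
  cp : ∀ i, IsCP A (T i)
  normal : ∀ i, IsNormalOn A (T i)
  comm : ∀ i j, ∀ a ∈ A, T i (T j a) = T j (T i a)

/-- The family `T_s = T_0^{s_0} T_1^{s_1} T_2^{s_2}`, `s ∈ ℕ^3`, given by three maps. -/
def family (T : Fin 3 → (H →L[ℂ] H) → (H →L[ℂ] H)) (s : Fin 3 → ℕ) (a : H →L[ℂ] H) :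
    H →L[ℂ] H := (T 0)^[s 0] ((T 1)^[s 1] ((T 2)^[s 2] a))

/-- `θ` is an E-semigroup over `ℕ^3` on `B`: a semigroup of normal `*`-endomorphisms, which need
not be unital. -/
structure IsESemigroup (B : VonNeumannAlgebra K)
    (θ : (Fin 3 → ℕ) → (K →L[ℂ] K) → (K →L[ℂ] K)) : Prop where
  linear : ∀ s, IsLinearOn B (θ s)
  mul : ∀ s, ∀ a ∈ B, ∀ b ∈ B, θ s (a * b) = θ s a * θ s b
  star : ∀ s, ∀ a ∈ B, θ s (star a) = star (θ s a)
  normal : ∀ s, IsNormalOn B (θ s)
  zero : ∀ b ∈ B, θ 0 b = b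
  add : ∀ s t, ∀ b ∈ B, θ (s + t) b = θ s (θ t b)

/-- For an isometry `V : H → K`, by which `H` is regarded as a closed subspace of `K`, the operator
`a` on `H` regarded as the operator `V a V†` on `K`. In particular `emb V 1 = V V†` is the
orthogonal projection of `K` onto `H`. -/
noncomputable def emb (V : H →ₗᵢ[ℂ] K) (a : H →L[ℂ] H) : K →L[ℂ] K :=
  V.toContinuousLinearMap ∘L a ∘L (ContinuousLinearMap.adjoint V.toContinuousLinearMap)

/-- `(p, K, B, θ)` is a dilation of the family `(T_s)`, `s ∈ ℕ^3`, of maps on `A ⊆ B(H)`: here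
`p = emb V 1` is the projection of `K` onto `H`, it lies in `B`, `A` is the corner `p B p`, `θ` is
an E-semigroup on `B`, and `T_s(a) = p θ_s(a) p` for all `s` and `a ∈ A`. -/
structure IsDilation (A : VonNeumannAlgebra H) (T : (Fin 3 → ℕ) → (H →L[ℂ] H) → (H →L[ℂ] H))
    (V : H →ₗᵢ[ℂ] K) (B : VonNeumannAlgebra K)
    (θ : (Fin 3 → ℕ) → (K →L[ℂ] K) → (K →L[ℂ] K)) : Prop where
  semigroup : IsESemigroup B θ
  proj_mem : emb V 1 ∈ B
  corner : ∀ x : K →L[ℂ] K, (∃ a ∈ A, x = emb V a) ↔ ∃ b ∈ B, x = emb V 1 * b * emb V 1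
  dil : ∀ (s : Fin 3 → ℕ), ∀ a ∈ A, emb V (T s a) = emb V 1 * θ s (emb V a) * emb V 1

/-- The family `(T_s)`, `s ∈ ℕ^3`, of maps on `A` has a dilation, on some Hilbert space `K` (in the
universe `u`) and with some von Neumann algebra `B` on `K`. -/
def HasDilation (A : VonNeumannAlgebra H) (T : (Fin 3 → ℕ) → (H →L[ℂ] H) → (H →L[ℂ] H)) : Prop :=
  ∃ (K : Type u) (_ : NormedAddCommGroup K) (_ : InnerProductSpace ℂ K) (_ : CompleteSpace K)
    (V : H →ₗᵢ[ℂ] K) (B : VonNeumannAlgebra K)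
    (θ : (Fin 3 → ℕ) → (K →L[ℂ] K) → (K →L[ℂ] K)), IsDilation A T V B θ

end Defs

section Emb

variable {H : Type*} [NormedAddCommGroup H] [InnerProductSpace ℂ H] [CompleteSpace H]
  {K : Type*} [NormedAddCommGroup K] [InnerProductSpace ℂ K] [CompleteSpace K]

theorem adj_comp (V : H →ₗᵢ[ℂ] K) (x : H) :
    ContinuousLinearMap.adjoint V.toContinuousLinearMap (V x) = x := by
  apply ext_inner_left ℂ
  intro y
  rw [ContinuousLinearMap.adjoint_inner_right]
  exact V.inner_map_map y x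

theorem emb_mul (V : H →ₗᵢ[ℂ] K) (a b : H →L[ℂ] H) : emb V (a * b) = emb V a * emb V b := by
  ext x
  simp only [emb, ContinuousLinearMap.mul_def, ContinuousLinearMap.comp_apply,
    LinearIsometry.coe_toContinuousLinearMap]
  rw [adj_comp]

theorem emb_star (V : H →ₗᵢ[ℂ] K) (a : H →L[ℂ] H) : emb V (star a) = star (emb V a) := by
  simp only [emb, ContinuousLinearMap.star_eq_adjoint, ContinuousLinearMap.adjoint_comp,
    ContinuousLinearMap.adjoint_adjoint, ContinuousLinearMap.comp_assoc]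

theorem emb_add (V : H →ₗᵢ[ℂ] K) (a b : H →L[ℂ] H) : emb V (a + b) = emb V a + emb V b := by
  ext x; simp [emb]

theorem emb_smul (V : H →ₗᵢ[ℂ] K) (c : ℂ) (a : H →L[ℂ] H) : emb V (c • a) = c • emb V a := by
  ext x; simp [emb]

theorem emb_zero (V : H →ₗᵢ[ℂ] K) : emb V (0 : H →L[ℂ] H) = 0 := by
  ext x; simp [emb]

theorem emb_sum (V : H →ₗᵢ[ℂ] K) {ι : Type*} (s : Finset ι) (a : ι → (H →L[ℂ] H)) :
    emb V (∑ i ∈ s, a i) = ∑ i ∈ s, emb V (a i) := by
  classical
  induction s using Finset.induction_on with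
  | empty => simp [emb_zero]
  | insert i s hi ih => rw [Finset.sum_insert hi, Finset.sum_insert hi, emb_add, ih]

theorem emb_inj (V : H →ₗᵢ[ℂ] K) {a : H →L[ℂ] H} (h : emb V a = 0) : a = 0 := by
  ext x
  have h1 := congrArg (fun T : K →L[ℂ] K => T (V x)) h
  simp only [emb, ContinuousLinearMap.comp_apply, LinearIsometry.coe_toContinuousLinearMap,
    adj_comp] at h1
  rw [show (0 : K →L[ℂ] K) (V x) = 0 from rfl] at h1
  have h2 : ‖a x‖ = 0 := by rw [← V.norm_map, h1, norm_zero]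
  simpa using h2

end Emb

/-! ### The diagonal algebra -/

/-- the Hilbert space `ℂ^15` -/
abbrev H0 : Type := EuclideanSpace ℂ (Fin 15)

/-- the diagonal operator with the diagonal entries `f` -/
noncomputable def D (f : Fin 15 → ℂ) : H0 →L[ℂ] H0 :=
  Matrix.toEuclideanCLM (n := Fin 15) (𝕜 := ℂ) (Matrix.diagonal f)

/-- the matrix of an operator -/
noncomputable def mat (a : H0 →L[ℂ] H0) : Matrix (Fin 15) (Fin 15) ℂ :=
  (Matrix.toEuclideanCLM (n := Fin 15) (𝕜 := ℂ)).symm a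

theorem mat_D (f : Fin 15 → ℂ) : mat (D f) = Matrix.diagonal f := by
  simp [mat, D]

theorem D_mul (f g : Fin 15 → ℂ) : D f * D g = D (fun x => f x * g x) := by
  simp only [D]
  rw [← map_mul, Matrix.diagonal_mul_diagonal]

theorem D_star (f : Fin 15 → ℂ) : star (D f) = D (fun x => star (f x)) := by
  simp only [D]
  rw [← map_star, Matrix.star_eq_conjTranspose, Matrix.diagonal_conjTranspose]
  rfl

theorem D_add (f g : Fin 15 → ℂ) : D f + D g = D (fun x => f x + g x) := by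
  simp only [D]
  rw [← map_add, Matrix.diagonal_add]

theorem D_smul (c : ℂ) (f : Fin 15 → ℂ) : c • D f = D (fun x => c * f x) := by
  simp only [D]
  rw [← map_smul, ← Matrix.diagonal_smul]
  rfl

theorem D_one : D (fun _ => 1) = 1 := by
  simp only [D]
  rw [Matrix.diagonal_one, map_one]

theorem D_zero : D (fun _ => 0) = 0 := by
  have h := D_add (fun _ => 0) (fun _ => 0)
  simp only [add_zero] at h
  exact add_eq_left.1 h

theorem D_injective {f g : Fin 15 → ℂ} (h : D f = D g) : f = g := by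
  have h1 := congrArg mat h
  rw [mat_D, mat_D] at h1
  exact Matrix.diagonal_injective h1

theorem D_apply (f : Fin 15 → ℂ) (v : H0) (x : Fin 15) : (D f v) x = f x * v x := by
  rw [D, Matrix.ofLp_toEuclideanCLM, Matrix.mulVec_diagonal]

/-- the von Neumann algebra of the diagonal operators on `ℂ^15` -/
noncomputable def A0 : VonNeumannAlgebra H0 where
  toStarSubalgebra := StarSubalgebra.centralizer ℂ (Set.range D)
  centralizer_centralizer' := by
    simp [Set.centralizer_centralizer_centralizer]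

theorem D_mem (f : Fin 15 → ℂ) : D f ∈ A0 := by
  change D f ∈ StarSubalgebra.centralizer ℂ (Set.range D)
  rw [StarSubalgebra.mem_centralizer_iff]
  rintro _ ⟨g, rfl⟩
  simp only [D_star, D_mul, mul_comm, and_self]

theorem mem_A0 {a : H0 →L[ℂ] H0} (h : a ∈ A0) : a = D (fun x => mat a x x) := by
  change a ∈ StarSubalgebra.centralizer ℂ (Set.range D) at h
  rw [StarSubalgebra.mem_centralizer_iff] at h
  have h1 : mat a = Matrix.diagonal (fun x => mat a x x) := by
    ext x y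
    by_cases hxy : x = y
    · subst hxy; rw [Matrix.diagonal_apply_eq]
    · rw [Matrix.diagonal_apply_ne _ hxy]
      have h2 := (h (D (Pi.single x 1)) ⟨_, rfl⟩).1
      have h3 := congrArg mat h2
      have h4 : ∀ b c : H0 →L[ℂ] H0, mat (b * c) = mat b * mat c := fun b c => by
        simp [mat]
      rw [h4, h4, mat_D] at h3
      have h5 := congrFun (congrFun h3 x) y
      rw [Matrix.diagonal_mul, Matrix.mul_diagonal, Pi.single_eq_same,
        Pi.single_eq_of_ne (Ne.symm hxy), mul_zero, one_mul] at h5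
      exact h5
  have h2 : a = Matrix.toEuclideanCLM (n := Fin 15) (𝕜 := ℂ) (mat a) := by simp [mat]
  rw [h2, h1]
  simp only [D]
  congr 1
  ext x y
  simp [mat]

theorem mat_add (a b : H0 →L[ℂ] H0) : mat (a + b) = mat a + mat b := by simp [mat]

theorem mat_smul (c : ℂ) (a : H0 →L[ℂ] H0) : mat (c • a) = c • mat a := by simp [mat]

/-- the function `P f` for the diagonal `f` of `a` -/
noncomputable def Pf (P : Matrix (Fin 15) (Fin 15) ℂ) (a : H0 →L[ℂ] H0) : Fin 15 → ℂ :=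
  fun x => ∑ y, P x y * mat a y y

theorem Pf_add (P : Matrix (Fin 15) (Fin 15) ℂ) (a b : H0 →L[ℂ] H0) :
    Pf P (a + b) = fun x => Pf P a x + Pf P b x := by
  funext x
  simp only [Pf, mat_add, Matrix.add_apply, mul_add, Finset.sum_add_distrib]

theorem Pf_smul (P : Matrix (Fin 15) (Fin 15) ℂ) (c : ℂ) (a : H0 →L[ℂ] H0) :
    Pf P (c • a) = fun x => c * Pf P a x := by
  funext x
  simp only [Pf, mat_smul, Matrix.smul_apply, smul_eq_mul, Finset.mul_sum]
  exact Finset.sum_congr rfl fun y _ => by ring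

/-- the map `D f ↦ D (P f)` of the diagonal algebra given by a matrix `P` -/
noncomputable def Tm (P : Matrix (Fin 15) (Fin 15) ℂ) (a : H0 →L[ℂ] H0) : H0 →L[ℂ] H0 :=
  D (Pf P a)

theorem Tm_linear (P : Matrix (Fin 15) (Fin 15) ℂ) : IsLinearOn A0 (Tm P) where
  mem a _ := D_mem _
  add a _ b _ := by rw [Tm, Pf_add, Tm, Tm, D_add]
  smul c a _ := by rw [Tm, Pf_smul, Tm, D_smul]

theorem Tm_mul (P Q : Matrix (Fin 15) (Fin 15) ℂ) (a : H0 →L[ℂ] H0) :
    Tm P (Tm Q a) = Tm (P * Q) a := by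
  rw [Tm, Tm, Tm]
  congr 1
  funext x
  simp only [Pf, mat_D, Matrix.diagonal_apply_eq, Matrix.mul_apply, Finset.mul_sum,
    Finset.sum_mul]
  rw [Finset.sum_comm]
  refine Finset.sum_congr rfl fun y _ => Finset.sum_congr rfl fun z _ => by ring

theorem Tm_one {a : H0 →L[ℂ] H0} (ha : a ∈ A0) : Tm 1 a = a := by
  rw [Tm]
  conv_rhs => rw [mem_A0 ha]
  congr 1
  funext x
  simp [Pf, Matrix.one_apply]

theorem Tm_pow (P : Matrix (Fin 15) (Fin 15) ℂ) (n : ℕ) {a : H0 →L[ℂ] H0} (ha : a ∈ A0) :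
    (Tm P)^[n] a = Tm (P ^ n) a := by
  induction n with
  | zero => rw [pow_zero, Function.iterate_zero, id, Tm_one ha]
  | succ n ih => rw [Function.iterate_succ_apply', ih, pow_succ', Tm_mul]

/-- the matrices of the semigroup -/
noncomputable def Pm (P : Fin 3 → Matrix (Fin 15) (Fin 15) ℂ) (s : Fin 3 → ℕ) :
    Matrix (Fin 15) (Fin 15) ℂ := P 0 ^ s 0 * P 1 ^ s 1 * P 2 ^ s 2

theorem family_Tm (P : Fin 3 → Matrix (Fin 15) (Fin 15) ℂ) (s : Fin 3 → ℕ) {a : H0 →L[ℂ] H0}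
    (ha : a ∈ A0) : family (fun i => Tm (P i)) s a = Tm (Pm P s) a := by
  have h : ∀ (P : Matrix (Fin 15) (Fin 15) ℂ) (b : H0 →L[ℂ] H0), Tm P b ∈ A0 :=
    fun P b => D_mem _
  rw [family, Tm_pow _ _ ha, Tm_pow _ _ (h _ _), Tm_pow _ _ (h _ _), Tm_mul, Tm_mul, Pm, mul_assoc]

theorem Tm_unital (P : Matrix (Fin 15) (Fin 15) ℂ) (h : ∀ x, ∑ y, P x y = 1) : Tm P 1 = 1 := by
  rw [Tm]
  conv_rhs => rw [← D_one]
  congr 1
  funext x
  rw [← h x]
  refine Finset.sum_congr rfl fun y _ => ?_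
  rw [← D_one, mat_D, Matrix.diagonal_apply_eq, mul_one]

/-- the basis vectors -/
noncomputable def bv (y : Fin 15) : H0 := EuclideanSpace.single y 1

theorem mat_inner (a : H0 →L[ℂ] H0) (y : Fin 15) : mat a y y = ⟪bv y, a (bv y)⟫_ℂ := by
  have h : a = Matrix.toEuclideanCLM (n := Fin 15) (𝕜 := ℂ) (mat a) := by simp [mat]
  rw [bv, EuclideanSpace.inner_single_left, map_one, one_mul]
  conv_rhs => rw [h, Matrix.ofLp_toEuclideanCLM]
  simp [Matrix.mulVec, dotProduct]

theorem Tm_cp (P : Matrix (Fin 15) (Fin 15) ℂ) (hP : ∀ x y, 0 ≤ P x y) :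
    IsCP A0 (Tm P) := by
  intro n a _ ha ξ
  have h1 : ∀ i j, ⟪ξ i, (Tm P (a i j) : H0 →L[ℂ] H0) (ξ j)⟫_ℂ =
      ∑ x, ∑ y, P x y * ⟪(ξ i x) • bv y, (a i j : H0 →L[ℂ] H0) ((ξ j x) • bv y)⟫_ℂ := by
    intro i j
    rw [PiLp.inner_apply]
    refine Finset.sum_congr rfl fun x _ => ?_
    rw [Tm, D_apply, Pf]
    rw [Finset.sum_mul, inner_sum]
    refine Finset.sum_congr rfl fun y _ => ?_
    rw [mat_inner, map_smul, inner_smul_left, inner_smul_right]
    simp only [RCLike.inner_apply]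
    ring
  simp only [h1]
  have h2 : ∑ i, ∑ j, ∑ x, ∑ y, P x y *
      ⟪(ξ i x) • bv y, (a i j : H0 →L[ℂ] H0) ((ξ j x) • bv y)⟫_ℂ =
      ∑ x, ∑ y, P x y * ∑ i, ∑ j,
      ⟪(ξ i x) • bv y, (a i j : H0 →L[ℂ] H0) ((ξ j x) • bv y)⟫_ℂ := by
    simp only [Finset.mul_sum]
    have e1 : ∀ (F : Fin n → Fin n → Fin 15 → Fin 15 → ℂ),
        ∑ i, ∑ j, ∑ x, ∑ y, F i j x y = ∑ x, ∑ y, ∑ i, ∑ j, F i j x y := by
      intro F
      calc ∑ i, ∑ j, ∑ x, ∑ y, F i j x y = ∑ i, ∑ x, ∑ j, ∑ y, F i j x y :=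
            Finset.sum_congr rfl fun i _ => Finset.sum_comm
        _ = ∑ x, ∑ i, ∑ j, ∑ y, F i j x y := Finset.sum_comm
        _ = ∑ x, ∑ i, ∑ y, ∑ j, F i j x y :=
            Finset.sum_congr rfl fun x _ => Finset.sum_congr rfl fun i _ => Finset.sum_comm
        _ = ∑ x, ∑ y, ∑ i, ∑ j, F i j x y :=
            Finset.sum_congr rfl fun x _ => Finset.sum_comm
    exact e1 _
  rw [h2]
  exact Finset.sum_nonneg fun x _ => Finset.sum_nonneg fun y _ =>
    mul_nonneg (hP x y) (ha (fun i => (ξ i x) • bv y))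

theorem D_pos_iff (h : Fin 15 → ℂ) : (D h).IsPositive ↔ ∀ x, 0 ≤ h x := by
  constructor
  · intro hp x
    have h1 := hp.inner_nonneg_right (bv x)
    rw [← mat_inner, mat_D, Matrix.diagonal_apply_eq] at h1
    exact h1
  · intro hp
    have h2 : ∀ x, star (h x) = h x := fun x => by
      have h1 := hp x
      rw [Complex.nonneg_iff] at h1
      apply Complex.ext
      · simp
      · simp [← h1.2]
    rw [ContinuousLinearMap.isPositive_iff']
    constructor
    · rw [IsSelfAdjoint, D_star]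
      congr 1
      funext x
      exact h2 x
    · intro v
      rw [PiLp.inner_apply]
      refine Finset.sum_nonneg fun x _ => ?_
      rw [D_apply, RCLike.inner_apply, map_mul]
      have h3 : (starRingEnd ℂ) (h x) = h x := h2 x
      rw [h3, show v x * (h x * (starRingEnd ℂ) (v x)) = h x * (v x * (starRingEnd ℂ) (v x)) by
        ring, Complex.mul_conj]
      exact mul_nonneg (hp x) (by exact_mod_cast Complex.normSq_nonneg _)

/-- the diagonal of an operator -/
noncomputable def dg (a : H0 →L[ℂ] H0) : Fin 15 → ℂ := fun x => mat a x x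

theorem D_dg {a : H0 →L[ℂ] H0} (ha : a ∈ A0) : D (dg a) = a := (mem_A0 ha).symm

theorem dg_D (f : Fin 15 → ℂ) : dg (D f) = f := by
  funext x
  simp [dg, mat_D]

theorem le_iff_dg {a b : H0 →L[ℂ] H0} (ha : a ∈ A0) (hb : b ∈ A0) :
    a ≤ b ↔ ∀ x, 0 ≤ dg b x - dg a x := by
  rw [ContinuousLinearMap.le_def, ← D_pos_iff]
  have h : D (fun x => dg b x - dg a x) = b - a := by
    conv_rhs => rw [← D_dg ha, ← D_dg hb]
    rw [eq_sub_iff_add_eq, D_add]
    congr 1
    funext x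
    ring
  rw [h]

theorem Tm_mem (P : Matrix (Fin 15) (Fin 15) ℂ) (a : H0 →L[ℂ] H0) : Tm P a ∈ A0 := D_mem _

theorem dg_Tm (P : Matrix (Fin 15) (Fin 15) ℂ) (a : H0 →L[ℂ] H0) (x : Fin 15) :
    dg (Tm P a) x = ∑ y, P x y * dg a y := by
  simp only [dg, Tm, mat_D, Matrix.diagonal_apply_eq, Pf]

theorem Tm_mono (P : Matrix (Fin 15) (Fin 15) ℂ) (hP : ∀ x y, 0 ≤ P x y) {a b : H0 →L[ℂ] H0}
    (ha : a ∈ A0) (hb : b ∈ A0) (h : a ≤ b) : Tm P a ≤ Tm P b := by
  rw [le_iff_dg ha hb] at h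
  rw [le_iff_dg (Tm_mem _ _) (Tm_mem _ _)]
  intro x
  rw [dg_Tm, dg_Tm, ← Finset.sum_sub_distrib]
  refine Finset.sum_nonneg fun y _ => ?_
  rw [← mul_sub]
  exact mul_nonneg (hP x y) (h y)

theorem approx (S : Set (H0 →L[ℂ] H0)) (x : H0 →L[ℂ] H0) (hSA : ∀ s ∈ S, s ∈ A0)
    (hne : S.Nonempty) (hdir : DirectedOn (· ≤ ·) S) (hx : IsSup A0 S x)
    (ε : ℝ) (hε : 0 < ε) (F : Finset (Fin 15)) :
    ∃ s ∈ S, ∀ w ∈ F, (dg x w - dg s w).re < ε := by
  classical
  induction F using Finset.induction_on with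
  | empty => obtain ⟨s, hs⟩ := hne; exact ⟨s, hs, by simp⟩
  | insert w F _ ih =>
    obtain ⟨s, hs, hsF⟩ := ih
    have h1 : ∃ t ∈ S, (dg x w - dg t w).re < ε := by
      by_contra hcon
      push Not at hcon
      have h2 : ∀ t ∈ S, t ≤ D (fun z => dg x z - if z = w then (ε : ℂ) else 0) := by
        intro t ht
        rw [le_iff_dg (hSA t ht) (D_mem _), dg_D]
        intro z
        have h3 := (le_iff_dg (hSA t ht) hx.1).1 (hx.2.1 t ht) z
        by_cases hz : z = w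
        · subst hz
          simp only [if_true]
          rw [Complex.nonneg_iff] at h3 ⊢
          have h4 := hcon t ht
          constructor
          · simp only [Complex.sub_re, Complex.ofReal_re] at h4 ⊢
            linarith
          · have := h3.2
            simp only [Complex.sub_im, Complex.ofReal_im] at this ⊢
            linarith
        · simp only [hz, if_false, sub_zero]
          exact h3
      have h5 := (le_iff_dg hx.1 (D_mem _)).1 (hx.2.2 _ (D_mem _) h2) w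
      rw [dg_D, Complex.nonneg_iff] at h5
      simp only [if_true, Complex.sub_re, Complex.ofReal_re] at h5
      linarith [h5.1]
    obtain ⟨t, ht, htw⟩ := h1
    obtain ⟨u, hu, hsu, htu⟩ := hdir s hs t ht
    refine ⟨u, hu, fun z hz => ?_⟩
    rw [Finset.mem_insert] at hz
    rcases hz with rfl | hz
    · have h6 := ((le_iff_dg (hSA t ht) (hSA u hu)).1 htu z)
      rw [Complex.nonneg_iff] at h6
      simp only [Complex.sub_re] at h6 htw ⊢
      linarith [h6.1]
    · have h6 := ((le_iff_dg (hSA s hs) (hSA u hu)).1 hsu z)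
      rw [Complex.nonneg_iff] at h6
      have h7 := hsF z hz
      simp only [Complex.sub_re] at h6 h7 ⊢
      linarith [h6.1]

theorem Tm_normal (P : Matrix (Fin 15) (Fin 15) ℂ) (hP : ∀ x y, 0 ≤ P x y)
    (h1 : ∀ x, ∑ y, P x y = 1) : IsNormalOn A0 (Tm P) := by
  intro S x hSA hne hdir hx
  refine ⟨D_mem _, ?_, ?_⟩
  · rintro _ ⟨s, hs, rfl⟩
    exact Tm_mono P hP (hSA s hs) hx.1 (hx.2.1 s hs)
  · intro y hyA hy
    rw [le_iff_dg (Tm_mem _ _) hyA]
    intro z
    obtain ⟨s0, hs0⟩ := hne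
    have ha := (le_iff_dg (Tm_mem _ _) hyA).1 (hy _ ⟨s0, hs0, rfl⟩) z
    have hb := (le_iff_dg (Tm_mem _ _) (Tm_mem _ _)).1
      (Tm_mono P hP (hSA s0 hs0) hx.1 (hx.2.1 s0 hs0)) z
    change 0 ≤ dg y z - dg (Tm P s0) z at ha
    change 0 ≤ dg (Tm P x) z - dg (Tm P s0) z at hb
    change 0 ≤ dg y z - dg (Tm P x) z
    rw [Complex.nonneg_iff] at ha hb ⊢
    refine ⟨?_, ?_⟩
    · refine le_of_forall_pos_lt_add fun ε hε => ?_
      obtain ⟨s, hs, hse⟩ := approx S x hSA ⟨s0, hs0⟩ hdir hx (ε / 2) (half_pos hε) Finset.univ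
      have hc := (le_iff_dg (Tm_mem _ _) hyA).1 (hy _ ⟨s, hs, rfl⟩) z
      change 0 ≤ dg y z - dg (Tm P s) z at hc
      rw [Complex.nonneg_iff] at hc
      have hd : (dg (Tm P x) z - dg (Tm P s) z).re ≤ ε / 2 := by
        rw [dg_Tm, dg_Tm, ← Finset.sum_sub_distrib, Complex.re_sum]
        have he : ∀ w, (P z w * dg x w - P z w * dg s w).re ≤ (P z w).re * (ε / 2) := by
          intro w
          have hf := hP z w
          rw [Complex.nonneg_iff] at hf
          rw [← mul_sub, Complex.mul_re, ← hf.2, zero_mul, sub_zero]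
          exact mul_le_mul_of_nonneg_left (hse w (Finset.mem_univ w)).le hf.1
        refine (Finset.sum_le_sum fun w _ => he w).trans ?_
        rw [← Finset.sum_mul, ← Complex.re_sum, h1]
        simp
      have hg := hc.1
      simp only [Complex.sub_re] at hd hg ⊢
      linarith
    · have := ha.2
      have := hb.2
      simp only [Complex.sub_im] at *
      linarith

/-! ### The three matrices -/

/-- twice the transition matrices -/
def Q : Fin 3 → Fin 15 → Fin 15 → ℕ :=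
  ![![![0, 1, 1, 0, 0, 0, 0, 0, 0, 0, 0, 0, 0, 0, 0], ![0, 0, 0, 0, 0, 0, 0, 0, 0, 0, 0, 0, 0, 0, 2],
      ![0, 0, 0, 0, 0, 0, 0, 0, 0, 0, 0, 0, 0, 0, 2], ![0, 0, 0, 0, 0, 0, 0, 1, 0, 0, 0, 0, 0, 0, 1],
      ![0, 0, 0, 0, 0, 0, 0, 0, 1, 0, 0, 0, 0, 0, 1], ![0, 0, 0, 0, 0, 0, 0, 0, 0, 0, 0, 1, 0, 0, 1],
      ![0, 0, 0, 0, 0, 0, 0, 0, 0, 0, 0, 0, 1, 0, 1], ![0, 0, 0, 0, 0, 0, 0, 0, 0, 0, 0, 0, 0, 0, 2],
      ![0, 0, 0, 0, 0, 0, 0, 0, 0, 0, 0, 0, 0, 0, 2], ![0, 0, 0, 0, 0, 0, 0, 0, 0, 0, 0, 0, 0, 1, 1],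
      ![0, 0, 0, 0, 0, 0, 0, 0, 0, 0, 0, 0, 0, 1, 1], ![0, 0, 0, 0, 0, 0, 0, 0, 0, 0, 0, 0, 0, 0, 2],
      ![0, 0, 0, 0, 0, 0, 0, 0, 0, 0, 0, 0, 0, 0, 2], ![0, 0, 0, 0, 0, 0, 0, 0, 0, 0, 0, 0, 0, 0, 2],
      ![0, 0, 0, 0, 0, 0, 0, 0, 0, 0, 0, 0, 0, 0, 2]],
    ![![0, 0, 0, 1, 1, 0, 0, 0, 0, 0, 0, 0, 0, 0, 0], ![0, 0, 0, 0, 0, 0, 0, 1, 0, 0, 0, 0, 0, 0, 1],
      ![0, 0, 0, 0, 0, 0, 0, 0, 1, 0, 0, 0, 0, 0, 1], ![0, 0, 0, 0, 0, 0, 0, 0, 0, 0, 0, 0, 0, 0, 2],
      ![0, 0, 0, 0, 0, 0, 0, 0, 0, 0, 0, 0, 0, 0, 2], ![0, 0, 0, 0, 0, 0, 0, 0, 0, 1, 0, 0, 0, 0, 1],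
      ![0, 0, 0, 0, 0, 0, 0, 0, 0, 0, 1, 0, 0, 0, 1], ![0, 0, 0, 0, 0, 0, 0, 0, 0, 0, 0, 0, 0, 0, 2],
      ![0, 0, 0, 0, 0, 0, 0, 0, 0, 0, 0, 0, 0, 0, 2], ![0, 0, 0, 0, 0, 0, 0, 0, 0, 0, 0, 0, 0, 0, 2],
      ![0, 0, 0, 0, 0, 0, 0, 0, 0, 0, 0, 0, 0, 0, 2], ![0, 0, 0, 0, 0, 0, 0, 0, 0, 0, 0, 0, 0, 1, 1],
      ![0, 0, 0, 0, 0, 0, 0, 0, 0, 0, 0, 0, 0, 1, 1], ![0, 0, 0, 0, 0, 0, 0, 0, 0, 0, 0, 0, 0, 0, 2],
      ![0, 0, 0, 0, 0, 0, 0, 0, 0, 0, 0, 0, 0, 0, 2]],
    ![![0, 0, 0, 0, 0, 1, 1, 0, 0, 0, 0, 0, 0, 0, 0], ![0, 0, 0, 0, 0, 0, 0, 0, 0, 0, 0, 0, 1, 0, 1],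
      ![0, 0, 0, 0, 0, 0, 0, 0, 0, 0, 0, 1, 0, 0, 1], ![0, 0, 0, 0, 0, 0, 0, 0, 0, 1, 0, 0, 0, 0, 1],
      ![0, 0, 0, 0, 0, 0, 0, 0, 0, 0, 1, 0, 0, 0, 1], ![0, 0, 0, 0, 0, 0, 0, 0, 0, 0, 0, 0, 0, 0, 2],
      ![0, 0, 0, 0, 0, 0, 0, 0, 0, 0, 0, 0, 0, 0, 2], ![0, 0, 0, 0, 0, 0, 0, 0, 0, 0, 0, 0, 0, 1, 1],
      ![0, 0, 0, 0, 0, 0, 0, 0, 0, 0, 0, 0, 0, 1, 1], ![0, 0, 0, 0, 0, 0, 0, 0, 0, 0, 0, 0, 0, 0, 2],
      ![0, 0, 0, 0, 0, 0, 0, 0, 0, 0, 0, 0, 0, 0, 2], ![0, 0, 0, 0, 0, 0, 0, 0, 0, 0, 0, 0, 0, 0, 2],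
      ![0, 0, 0, 0, 0, 0, 0, 0, 0, 0, 0, 0, 0, 0, 2], ![0, 0, 0, 0, 0, 0, 0, 0, 0, 0, 0, 0, 0, 0, 2],
      ![0, 0, 0, 0, 0, 0, 0, 0, 0, 0, 0, 0, 0, 0, 2]]]

theorem Q_sum : ∀ i x, ∑ y, Q i x y = 2 := by decide +kernel

theorem Q_comm : ∀ i j x z, ∑ y, Q i x y * Q j y z = ∑ y, Q j x y * Q i y z := by decide +kernel

/-- the three stochastic matrices -/
noncomputable def P0 (i : Fin 3) : Matrix (Fin 15) (Fin 15) ℂ := fun x y => (Q i x y : ℂ) / 2

theorem P0_nonneg (i : Fin 3) (x y : Fin 15) : 0 ≤ P0 i x y := by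
  simp only [P0]
  positivity

theorem P0_sum (i : Fin 3) (x : Fin 15) : ∑ y, P0 i x y = 1 := by
  simp only [P0]
  rw [← Finset.sum_div, ← Nat.cast_sum, Q_sum]
  norm_num

theorem P0_comm (i j : Fin 3) : P0 i * P0 j = P0 j * P0 i := by
  ext x z
  rw [Matrix.mul_apply, Matrix.mul_apply]
  have h := Q_comm i j x z
  have h1 : ∑ y, (Q i x y : ℂ) * (Q j y z : ℂ) = ∑ y, (Q j x y : ℂ) * (Q i y z : ℂ) := by
    exact_mod_cast h
  simp only [P0]
  calc ∑ y, (Q i x y : ℂ) / 2 * ((Q j y z : ℂ) / 2) = (∑ y, (Q i x y : ℂ) * (Q j y z : ℂ)) / 4 := by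
        rw [Finset.sum_div]; exact Finset.sum_congr rfl fun y _ => by ring
    _ = (∑ y, (Q j x y : ℂ) * (Q i y z : ℂ)) / 4 := by rw [h1]
    _ = _ := by rw [Finset.sum_div]; exact Finset.sum_congr rfl fun y _ => by ring


section Main

variable {K : Type u} [NormedAddCommGroup K] [InnerProductSpace ℂ K] [CompleteSpace K]

open Pool.Agent.TH254.Dil

theorem mul_self_eq (V : H0 →ₗᵢ[ℂ] K) (a b : H0 →L[ℂ] H0) (x : K →L[ℂ] K) :
    emb V a * (emb V 1 * x * emb V 1) * emb V b = emb V a * x * emb V b := by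
  have h1 : emb V a * emb V 1 = emb V a := by rw [← emb_mul, mul_one]
  have h2 : emb V 1 * emb V b = emb V b := by rw [← emb_mul, one_mul]
  calc emb V a * (emb V 1 * x * emb V 1) * emb V b
      = (emb V a * emb V 1) * x * (emb V 1 * emb V b) := by simp only [mul_assoc]
    _ = _ := by rw [h1, h2]

/-- the `*`-algebra of the elements of the von Neumann algebra `B` -/
abbrev El (B : VonNeumannAlgebra K) : Type _ := B.toStarSubalgebra

/-- the endomorphisms as homomorphisms -/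
noncomputable def hom (B : VonNeumannAlgebra K) (θ : (Fin 3 → ℕ) → (K →L[ℂ] K) → (K →L[ℂ] K))
    (h : IsESemigroup B θ) (s : Fin 3 → ℕ) : El B →⋆ₙₐ[ℂ] El B where
  toFun b := ⟨θ s b, (h.linear s).mem _ b.2⟩
  map_smul' c b := Subtype.ext ((h.linear s).smul c _ b.2)
  map_zero' := Subtype.ext (by
    have h1 := (h.linear s).smul 0 0 (zero_mem B)
    rw [zero_smul, zero_smul] at h1
    exact h1)
  map_add' a b := Subtype.ext ((h.linear s).add _ a.2 _ b.2)
  map_mul' a b := Subtype.ext (h.mul s _ a.2 _ b.2)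
  map_star' a := Subtype.ext (h.star s _ a.2)

theorem coe_hom (B : VonNeumannAlgebra K) (θ : (Fin 3 → ℕ) → (K →L[ℂ] K) → (K →L[ℂ] K))
    (h : IsESemigroup B θ) (s : Fin 3 → ℕ) (b : El B) :
    (hom B θ h s b : K →L[ℂ] K) = θ s b := rfl

/-- the system of a dilation -/
theorem exists_sys (P : Fin 3 → Matrix (Fin 15) (Fin 15) ℂ) (h1 : ∀ i x, ∑ y, P i x y = 1)
    (V : H0 →ₗᵢ[ℂ] K) (B : VonNeumannAlgebra K) (θ' : (Fin 3 → ℕ) → (K →L[ℂ] K) → (K →L[ℂ] K))
    (h : IsDilation A0 (family (fun i => Tm (P i))) V B θ') :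
    ∃ S : Sys (El B) (Fin 15), (∀ s x y, S.P s x y = Pm P s x y) ∧ ∀ x, S.e x ≠ 0 := by
  have hmem : ∀ f, emb V (D f) ∈ B := by
    intro f
    obtain ⟨b, hb, hbe⟩ := (h.corner (emb V (D f))).1 ⟨D f, D_mem f, rfl⟩
    rw [hbe]
    exact mul_mem (mul_mem h.proj_mem hb) h.proj_mem
  let e : Fin 15 → El B := fun x => ⟨emb V (D (Pi.single x 1)), hmem _⟩
  let θ : (Fin 3 → ℕ) → (El B →⋆ₙₐ[ℂ] El B) := hom B θ' h.semigroup
  have hdil : ∀ s (f : Fin 15 → ℂ), emb V 1 * (θ s ⟨emb V (D f), hmem f⟩ : K →L[ℂ] K) * emb V 1 =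
      emb V (D (fun x => ∑ y, Pm P s x y * f y)) := by
    intro s f
    have h2 := h.dil s (D f) (D_mem f)
    change emb V 1 * θ' s (emb V (D f)) * emb V 1 = _
    rw [← h2, family_Tm _ _ (D_mem f), Tm]
    congr 2
    funext x
    simp only [Pf, mat_D, Matrix.diagonal_apply_eq]
  have hone : ∀ s x, ∑ y, Pm P s x y = 1 := by
    intro s x
    have h2 : ∀ (M N : Matrix (Fin 15) (Fin 15) ℂ), (∀ x, ∑ y, M x y = 1) →
        (∀ x, ∑ y, N x y = 1) → ∀ x, ∑ y, (M * N) x y = 1 := by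
      intro M N hM hN x
      simp only [Matrix.mul_apply]
      rw [Finset.sum_comm]
      simp only [← Finset.mul_sum, hN, mul_one, hM]
    have h3 : ∀ (M : Matrix (Fin 15) (Fin 15) ℂ), (∀ x, ∑ y, M x y = 1) → ∀ n : ℕ, ∀ x,
        ∑ y, (M ^ n) x y = 1 := by
      intro M hM n
      induction n with
      | zero => intro x; simp [Matrix.one_apply]
      | succ n ih => rw [pow_succ]; exact h2 _ _ ih hM
    exact h2 _ _ (h2 _ _ (h3 _ (h1 0) _) (h3 _ (h1 1) _)) (h3 _ (h1 2) _) x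
  have hsum : ∑ y, e y = ⟨emb V (D (fun _ => 1)), hmem _⟩ := by
    apply Subtype.ext
    rw [AddSubmonoidClass.coe_finsetSum]
    change ∑ y, emb V (D (Pi.single y 1)) = emb V (D fun _ => 1)
    rw [← emb_sum]
    congr 1
    have h4 : ∀ F : Finset (Fin 15), ∑ y ∈ F, D (Pi.single y 1) =
        D (fun x => if x ∈ F then 1 else 0) := by
      intro F
      induction F using Finset.induction_on with
      | empty => simp [D_zero]
      | insert w F hw ih =>
        rw [Finset.sum_insert hw, ih, D_add]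
        congr 1
        funext x
        by_cases hx : x = w
        · subst hx; simp [hw]
        · simp [hx]
    rw [h4]
    simp
  refine ⟨{ θ := θ, e := e, P := fun s x y => Pm P s x y, add := fun s t x => Subtype.ext (h.semigroup.add s t _ x.2),
            idem := ?_, self := ?_, corner := ?_, unit := ?_, cstar := ?_ }, fun _ _ _ => rfl, ?_⟩
  · intro x
    apply Subtype.ext
    change emb V (D _) * emb V (D _) = emb V (D _)
    rw [← emb_mul, D_mul]
    congr 2
    funext y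
    by_cases hy : y = x
    · subst hy; simp
    · simp [hy]
  · intro x
    apply Subtype.ext
    change star (emb V (D _)) = emb V (D _)
    rw [← emb_star, D_star]
    congr 2
    funext y
    by_cases hy : y = x
    · subst hy; simp
    · simp [hy]
  · intro s x x' y
    apply Subtype.ext
    change emb V (D _) * (θ s (e y) : K →L[ℂ] K) * emb V (D _) = _
    rw [← mul_self_eq, hdil, ← emb_mul, ← emb_mul, D_mul, D_mul]
    split_ifs with hxx
    · subst hxx
      change _ = Pm P s x y • emb V (D _)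
      rw [← emb_smul, D_smul]
      congr 2
      funext z
      by_cases hz : z = x
      · subst hz; simp [Pi.single_apply]
      · simp [hz]
    · change _ = (0 : K →L[ℂ] K)
      rw [← emb_zero V, ← D_zero]
      congr 2
      funext z
      by_cases hz : z = x
      · subst hz; simp [hxx]
      · simp [hz]
  · intro s x
    rw [hsum]
    set q : El B := ⟨emb V (D fun _ => 1), hmem _⟩ with hq
    have hqq : q * q = q := by
      apply Subtype.ext
      change emb V (D _) * emb V (D _) = emb V (D _)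
      rw [← emb_mul, D_mul]
      simp
    have hqs : star q = q := by
      apply Subtype.ext
      change star (emb V (D _)) = emb V (D _)
      rw [← emb_star, D_star]
      simp
    have hqt : q * θ s q * q = q := by
      apply Subtype.ext
      have h5 := hdil s (fun _ => 1)
      simp only [mul_one, hone] at h5
      rw [← D_one] at h5
      exact h5
    have hqx : q * e x = e x := by
      apply Subtype.ext
      change emb V (D _) * emb V (D _) = emb V (D _)
      rw [← emb_mul, D_mul]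
      simp
    have h6 : θ s q * q = q := by
      have h7 : star (θ s q * q - q) * (θ s q * q - q) = 0 := by
        have h8 : θ s q * θ s q = θ s q := by rw [← map_mul, hqq]
        have h9 : star (θ s q) = θ s q := by rw [← map_star, hqs]
        rw [star_sub, star_mul, h9, hqs, sub_mul, mul_sub, mul_sub]
        have e1 : q * θ s q * (θ s q * q) = q := by
          calc q * θ s q * (θ s q * q) = q * (θ s q * θ s q) * q := by simp only [mul_assoc]
            _ = q := by rw [h8, hqt]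
        have e2 : q * (θ s q * q) = q := by rw [← mul_assoc, hqt]
        rw [e1, e2, hqt, hqq]
        simp
      have h10 := congrArg Subtype.val h7
      have h11 : (θ s q * q - q : El B) = 0 := by
        apply Subtype.ext
        exact (CStarRing.star_mul_self_eq_zero_iff _).1 h10
      exact sub_eq_zero.1 h11
    calc θ s q * e x = θ s q * (q * e x) := by rw [hqx]
      _ = (θ s q * q) * e x := by rw [mul_assoc]
      _ = e x := by rw [h6, hqx]
  · intro a ha
    apply Subtype.ext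
    exact (CStarRing.star_mul_self_eq_zero_iff _).1 (congrArg Subtype.val ha)
  · intro x hx
    have h12 : emb V (D (Pi.single x 1)) = 0 := congrArg Subtype.val hx
    have h13 := emb_inj V h12
    have h14 := congrArg (fun T => mat T x x) h13
    simp only [mat_D, Matrix.diagonal_apply_eq, Pi.single_eq_same] at h14
    simp [mat] at h14

/-- the unit vectors of `ℕ^3` -/
def uv (i : Fin 3) : Fin 3 → ℕ := Pi.single i 1

theorem Pm_uv (i : Fin 3) : Pm P0 (uv i) = P0 i := by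
  fin_cases i <;> simp [Pm, uv]

theorem Pm_12 : Pm P0 (uv 1 + uv 2) = P0 1 * P0 2 := by
  simp [Pm, uv]

theorem Q_zero {i j : Fin 3} {x y z : Fin 15} (h : Q i x y * Q j y z = 0) :
    P0 i x y * P0 j y z = 0 := by
  simp only [P0]
  have h1 : (Q i x y : ℂ) * (Q j y z : ℂ) = 0 := by exact_mod_cast h
  linear_combination h1 / 4

theorem no_dilation (V : H0 →ₗᵢ[ℂ] K) (B : VonNeumannAlgebra K)
    (θ : (Fin 3 → ℕ) → (K →L[ℂ] K) → (K →L[ℂ] K)) :
    ¬ IsDilation A0 (family (fun i => Tm (P0 i))) V B θ := by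
  intro h
  obtain ⟨S, hS, he⟩ := exists_sys P0 P0_sum V B θ h
  have hu : ∀ i x y, S.P (uv i) x y = P0 i x y := fun i x y => by rw [hS, Pm_uv]
  have link : ∀ (i j k : Fin 3) (a b : Fin 15),
      (∀ a', a' ≠ a → Q i 0 a' * Q j a' b = 0) → (∀ b', b' ≠ b → Q j a b' * Q k b' 13 = 0) →
      S.θ (uv i + uv j + uv k) (S.e 13) * (S.θ (uv i) (S.e a) * S.e 0) =
      S.θ (uv i + uv j + uv k) (S.e 13) * (S.θ (uv i + uv j) (S.e b) * S.e 0) := by
    intro i j k a b h1 h2
    apply S.link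
    · intro a' ha'
      rw [hu, hu]
      exact Q_zero (h1 a' ha')
    · intro b' hb'
      rw [hu, hu]
      exact Q_zero (h2 b' hb')
  have l1 := link 0 1 2 1 7 (by decide +kernel) (by decide +kernel)
  have l2 := link 1 0 2 3 7 (by decide +kernel) (by decide +kernel)
  have l3 := link 1 2 0 3 9 (by decide +kernel) (by decide +kernel)
  have l4 := link 2 1 0 5 9 (by decide +kernel) (by decide +kernel)
  have l5 := link 2 0 1 5 11 (by decide +kernel) (by decide +kernel)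
  have l6 := link 0 2 1 2 11 (by decide +kernel) (by decide +kernel)
  have c1 : uv 1 + uv 0 + uv 2 = uv 0 + uv 1 + uv 2 := by decide
  have c2 : uv 1 + uv 2 + uv 0 = uv 0 + uv 1 + uv 2 := by decide
  have c3 : uv 2 + uv 1 + uv 0 = uv 0 + uv 1 + uv 2 := by decide
  have c4 : uv 2 + uv 0 + uv 1 = uv 0 + uv 1 + uv 2 := by decide
  have c5 : uv 0 + uv 2 + uv 1 = uv 0 + uv 1 + uv 2 := by decide
  have d1 : uv 1 + uv 0 = uv 0 + uv 1 := by decide
  have d2 : uv 2 + uv 1 = uv 1 + uv 2 := by decide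
  have d3 : uv 2 + uv 0 = uv 0 + uv 2 := by decide
  rw [c1, d1] at l2
  rw [c2] at l3
  rw [c3, d2] at l4
  rw [c4, d3] at l5
  rw [c5] at l6
  have hfin := S.final (uv 0) (uv 1 + uv 2) 0 1 2 13 (by decide) (by
    rw [← add_assoc]
    exact ((((l1.trans l2.symm).trans l3).trans l4.symm).trans l5).trans l6.symm)
  rw [hu, hS, Pm_12] at hfin
  rcases smul_eq_zero.1 hfin with h1 | h1
  · have h2 : (P0 1 * P0 2) 1 13 = 1 / 4 := by
      rw [Matrix.mul_apply]
      have h3 : ∑ y, Q 1 1 y * Q 2 y 13 = 1 := by decide +kernel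
      have h4 : ∑ y, (Q 1 1 y : ℂ) * (Q 2 y 13 : ℂ) = 1 := by exact_mod_cast h3
      simp only [P0]
      calc ∑ y, (Q 1 1 y : ℂ) / 2 * ((Q 2 y 13 : ℂ) / 2)
          = (∑ y, (Q 1 1 y : ℂ) * (Q 2 y 13 : ℂ)) / 4 := by
            rw [Finset.sum_div]; exact Finset.sum_congr rfl fun y _ => by ring
        _ = 1 / 4 := by rw [h4]
    have h5 : P0 0 0 1 = 1 / 2 := by
      simp only [P0]
      have : Q 0 0 1 = 1 := by decide +kernel
      rw [this]; norm_num
    rw [h2, h5] at h1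
    norm_num at h1
  · exact he 0 h1

end Main

/-- **There are three commuting unital normal CP maps without any dilation.** There are a Hilbert
space `H` of dimension 15, a commutative von Neumann algebra `A` on `H` and three pairwise
commuting, unital, normal, completely positive maps `T 0, T 1, T 2` on `A` such that the
CP-semigroup over `ℕ^3` given by `T 0, T 1, T 2` has no dilation: for every Hilbert space `K`, every
isometry `V : H → K`, every von Neumann algebra `B` on `K` and every family `θ` of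
`*`-endomorphisms of `B` indexed by `ℕ^3`, the quadruple `(V V†, K, B, θ)` is not a dilation. -/
theorem result : ∃ (H : Type) (_ : NormedAddCommGroup H) (_ : InnerProductSpace ℂ H)
    (_ : CompleteSpace H) (A : VonNeumannAlgebra H) (T : Fin 3 → (H →L[ℂ] H) → (H →L[ℂ] H)),
    Module.finrank ℂ H = 15 ∧ (∀ a ∈ A, ∀ b ∈ A, a * b = b * a) ∧ IsCommutingTriple A T ∧
      ¬ HasDilation.{u} A (family T) := by
  refine ⟨H0, inferInstance, inferInstance, inferInstance, A0, fun i => Tm (P0 i), by simp, ?_,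
    ⟨fun i => Tm_linear _, fun i => Tm_unital _ (P0_sum i),
    fun i => Tm_cp _ (P0_nonneg i), fun i => Tm_normal _ (P0_nonneg i) (P0_sum i), ?_⟩, ?_⟩
  · intro a ha b hb
    rw [mem_A0 ha, mem_A0 hb, D_mul, D_mul]
    simp only [mul_comm]
  · intro i j a _
    rw [Tm_mul, Tm_mul, P0_comm]
  · rintro ⟨K, _, _, _, V, B, θ, h⟩
    exact no_dilation V B θ h

end Pool.Agent.Results.MP_0a86e9_an.NoDilation
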